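import Pool.Agent.R544.CD.Defs

/-!
# The digraph of a monotone not-all-equal formula
-/

set_option autoImplicit false

namespace Pool.Agent.R544.CD

/-- A formula with `n` variables and `m` clauses `X j, Y j, Z j`. -/
structure Dat where
  n : ℕ
  m : ℕ
  X : ℕ → ℕ
  Y : ℕ → ℕ
  Z : ℕ → ℕ

/-- The variables are in the range. -/
structure Good (D : Dat) : Prop where
  hX : ∀ j < D.m, D.X j < D.n
  hY : ∀ j < D.m, D.Y j < D.n
  hZ : ∀ j < D.m, D.Z j < D.n

/-- The arcs inside of a gadget. -/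
def gl : List (ℕ × ℕ) :=
  [(1, 4), (1, 5), (2, 0), (2, 5), (3, 0), (3, 2), (4, 2), (4, 5), (5, 0)]

/-- The arcs. -/
def Ar (D : Dat) (u w : ℕ) : Prop :=
  (u < 2 * D.n ∧ w < 2 * D.n ∧ u / 2 = w / 2 ∧ u ≠ w) ∨
  (∃ j < D.m, ∃ p ∈ gl, u = 2 * D.n + 6 * j + p.1 ∧ w = 2 * D.n + 6 * j + p.2) ∨
  (∃ j < D.m, u = 2 * D.X j ∧ w = 2 * D.n + 6 * j + 5) ∨
  (∃ j < D.m, u = 2 * D.Z j + 1 ∧ w = 2 * D.n + 6 * j + 3) ∨
  (∃ j < D.m, u = 2 * D.n + 6 * j + 4 ∧ w = 2 * D.Y j)

/-- The order inside of a gadget. -/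
def rk (a b c : Bool) (i : ℕ) : ℕ :=
  (match a, b, c with
  | false, false, true => [2, 4, 5, 0, 3, 1]
  | false, true, false => [2, 3, 0, 4, 5, 1]
  | false, true, true => [3, 4, 2, 0, 5, 1]
  | true, false, false => [0, 2, 3, 4, 1, 5]
  | true, false, true => [1, 3, 5, 0, 2, 4]
  | true, true, false => [1, 2, 0, 3, 4, 5]
  | _, _, _ => [0, 1, 2, 3, 4, 5]).getD i 0

theorem gl_lt : ∀ p ∈ gl, p.1 < 6 ∧ p.2 < 6 ∧ p.1 ≠ p.2 := by decide

theorem rk_lt : ∀ (a b c : Bool), ∀ i < 6, rk a b c i < 6 := by decide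

theorem rk_inj : ∀ (a b c : Bool), ∀ i < 6, ∀ k < 6, rk a b c i = rk a b c k → i = k := by decide

theorem rk_5 : ∀ (a b c : Bool), ¬ (a = b ∧ b = c) → ∀ p ∈ gl, p.1 = 5 →
    (rk a b c p.2 < rk a b c 5 ↔ a = true) := by decide

theorem rk_4 : ∀ (a b c : Bool), ¬ (a = b ∧ b = c) → ∀ p ∈ gl, p.2 = 4 →
    (rk a b c p.1 < rk a b c 4 ↔ b = true) := by decide

theorem rk_3 : ∀ (a b c : Bool), ¬ (a = b ∧ b = c) → ∀ p ∈ gl, p.1 = 3 →
    (rk a b c p.2 < rk a b c 3 ↔ c = false) := by decide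

theorem rk_in : ∀ (a b c : Bool), ¬ (a = b ∧ b = c) → ∀ p ∈ gl, ∀ q ∈ gl, p.2 = q.1 →
    (p.1, q.2) ∉ gl → (rk a b c p.1 < rk a b c p.2 ↔ rk a b c q.2 < rk a b c p.2) := by decide

variable {D : Dat} {τ : ℕ → Bool}

/-- The order in a gadget for an assignment. -/
def rj (D : Dat) (τ : ℕ → Bool) (j : ℕ) (c : ℕ) : ℕ := rk (τ (D.X j)) (τ (D.Y j)) (τ (D.Z j)) c

/-- The ordering for an assignment. -/
def ff (D : Dat) (τ : ℕ → Bool) (u : ℕ) : ℕ :=
  if u < 2 * D.n then (if decide (u % 2 = 0) = τ (u / 2) then u / 2 else D.n + 6 * D.m + u / 2)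
  else D.n + 6 * ((u - 2 * D.n) / 6) + rj D τ ((u - 2 * D.n) / 6) ((u - 2 * D.n) % 6)

theorem ff_core {j c : ℕ} (hc : c < 6) : ff D τ (2 * D.n + 6 * j + c) =
    D.n + 6 * j + rj D τ j c := by
  unfold ff
  rw [if_neg (by omega), show (2 * D.n + 6 * j + c - 2 * D.n) / 6 = j by omega,
    show (2 * D.n + 6 * j + c - 2 * D.n) % 6 = c by omega]

theorem ff_pos {v : ℕ} (hv : v < D.n) : ff D τ (2 * v) =
    if τ v = true then v else D.n + 6 * D.m + v := by
  unfold ff
  rw [if_pos (by omega), show 2 * v / 2 = v by omega, show 2 * v % 2 = 0 by omega]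
  cases τ v <;> simp

theorem ff_neg {v : ℕ} (hv : v < D.n) : ff D τ (2 * v + 1) =
    if τ v = true then D.n + 6 * D.m + v else v := by
  unfold ff
  rw [if_pos (by omega), show (2 * v + 1) / 2 = v by omega, show (2 * v + 1) % 2 = 1 by omega]
  cases τ v <;> simp

theorem rj_lt {j c : ℕ} (hc : c < 6) : rj D τ j c < 6 := rk_lt _ _ _ c hc

/-- A vertex is a positive hub, a negative hub or a vertex of a gadget. -/
theorem vertex_cases {u : ℕ} (hu : u < 2 * D.n + 6 * D.m) :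
    (∃ v < D.n, u = 2 * v) ∨ (∃ v < D.n, u = 2 * v + 1) ∨
      ∃ j < D.m, ∃ c < 6, u = 2 * D.n + 6 * j + c := by
  by_cases h : u < 2 * D.n
  · by_cases h2 : u % 2 = 0
    · exact Or.inl ⟨u / 2, by omega, by omega⟩
    · exact Or.inr (Or.inl ⟨u / 2, by omega, by omega⟩)
  · exact Or.inr (Or.inr ⟨(u - 2 * D.n) / 6, by omega, (u - 2 * D.n) % 6, by omega, by omega⟩)

theorem ff_inj {u w : ℕ} (hu : u < 2 * D.n + 6 * D.m) (hw : w < 2 * D.n + 6 * D.m)
    (h : ff D τ u = ff D τ w) : u = w := by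
  rcases vertex_cases hu with ⟨v, hv, rfl⟩ | ⟨v, hv, rfl⟩ | ⟨j, hj, c, hc, rfl⟩ <;>
    rcases vertex_cases hw with ⟨v', hv', rfl⟩ | ⟨v', hv', rfl⟩ | ⟨j', hj', c', hc', rfl⟩
  · rw [ff_pos hv, ff_pos hv'] at h
    split_ifs at h <;> omega
  · rw [ff_pos hv, ff_neg hv'] at h
    split_ifs at h with h1 h2 h2
    · omega
    · have : v = v' := h
      subst this
      exact absurd h1 h2
    · have : v = v' := by omega
      subst this
      exact absurd h2 h1
    · omega
  · rw [ff_pos hv, ff_core hc'] at h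
    have := rj_lt (D := D) (τ := τ) (j := j') hc'
    split_ifs at h <;> omega
  · rw [ff_neg hv, ff_pos hv'] at h
    split_ifs at h with h1 h2 h2
    · omega
    · have : v = v' := by omega
      subst this
      exact absurd h1 h2
    · have : v = v' := h
      subst this
      exact absurd h2 h1
    · omega
  · rw [ff_neg hv, ff_neg hv'] at h
    split_ifs at h <;> omega
  · rw [ff_neg hv, ff_core hc'] at h
    have := rj_lt (D := D) (τ := τ) (j := j') hc'
    split_ifs at h <;> omega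
  · rw [ff_core hc, ff_pos hv'] at h
    have := rj_lt (D := D) (τ := τ) (j := j) hc
    split_ifs at h <;> omega
  · rw [ff_core hc, ff_neg hv'] at h
    have := rj_lt (D := D) (τ := τ) (j := j) hc
    split_ifs at h <;> omega
  · rw [ff_core hc, ff_core hc'] at h
    have h1 := rj_lt (D := D) (τ := τ) (j := j) hc
    have h2 := rj_lt (D := D) (τ := τ) (j := j') hc'
    have h3 : j = j' := by omega
    subst h3
    have h5 : rj D τ j c = rj D τ j c' := by omega
    have h4 := rk_inj _ _ _ c hc c' hc' h5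
    rw [h4]

/-- No vertex is between two vertices when it must not be. -/
theorem noBetween (hD : Good D)
    (hτ : ∀ j < D.m, ¬ (τ (D.X j) = τ (D.Y j) ∧ τ (D.Y j) = τ (D.Z j))) {a b c : ℕ}
    (hab : Ar D a b) (hbc : Ar D b c) (hac : ¬ Ar D a c) (hne : a ≠ c) :
    (ff D τ a < ff D τ b ↔ ff D τ c < ff D τ b) := by
  rcases hab with ⟨h1, h2, h3, h4⟩ | ⟨j, hj, p, hp, rfl, rfl⟩ | ⟨j, hj, rfl, rfl⟩ |
    ⟨j, hj, rfl, rfl⟩ | ⟨j, hj, rfl, rfl⟩ <;>
  rcases hbc with ⟨k1, k2, k3, k4⟩ | ⟨j', hj', q, hq, e1, rfl⟩ | ⟨j', hj', e1, rfl⟩ |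
    ⟨j', hj', e1, rfl⟩ | ⟨j', hj', e1, rfl⟩
  · exfalso; omega
  · exfalso; omega
  · -- hub, positive hub, 5
    have hx := hD.hX j' hj'
    have ha : a = 2 * D.X j' + 1 := by omega
    subst e1 ha
    rw [ff_neg hx, ff_pos hx, ff_core (by omega)]
    have := rj_lt (D := D) (τ := τ) (j := j') (c := 5) (by omega)
    split_ifs <;> omega
  · have hz := hD.hZ j' hj'
    have ha : a = 2 * D.Z j' := by omega
    subst e1 ha
    rw [ff_neg hz, ff_pos hz, ff_core (by omega)]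
    have := rj_lt (D := D) (τ := τ) (j := j') (c := 3) (by omega)
    split_ifs <;> omega
  · exfalso; omega
  · exfalso; omega
  · -- inside of a gadget
    have g1 := gl_lt p hp
    have g2 := gl_lt q hq
    have hjj : j = j' := by omega
    subst hjj
    have hpq : p.2 = q.1 := by omega
    rw [ff_core g1.1, ff_core g1.2.1, ff_core g2.2.1]
    have h5 := rk_in (τ (D.X j)) (τ (D.Y j)) (τ (D.Z j)) (hτ j hj) p hp q hq hpq (fun hin =>
      hac (Or.inr (Or.inl ⟨j, hj, (p.1, q.2), hin, rfl, rfl⟩)))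
    unfold rj
    omega
  · exfalso
    have g1 := gl_lt p hp
    have := hD.hX j' hj'
    omega
  · exfalso
    have g1 := gl_lt p hp
    have := hD.hZ j' hj'
    omega
  · -- `1, 4`, hub
    have g1 := gl_lt p hp
    have hjj : j = j' := by omega
    subst hjj
    have hp4 : p.2 = 4 := by omega
    have hy := hD.hY j hj
    rw [hp4, ff_core g1.1, ff_core (by omega), ff_pos hy]
    have h5 := rk_4 (τ (D.X j)) (τ (D.Y j)) (τ (D.Z j)) (hτ j hj) p hp hp4
    have h6 := rj_lt (D := D) (τ := τ) (j := j) g1.1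
    have h7 := rj_lt (D := D) (τ := τ) (j := j) (c := 4) (by omega)
    have h8 : rj D τ j p.1 < rj D τ j 4 ↔ τ (D.Y j) = true := h5
    split_ifs with h9
    · rw [eq_true h9, iff_true] at h8
      omega
    · rw [eq_false h9, iff_false] at h8
      omega
  · exfalso; omega
  · -- hub, `5`, `0`
    have g2 := gl_lt q hq
    have hjj : j = j' := by omega
    subst hjj
    have hq5 : q.1 = 5 := by omega
    have hx := hD.hX j hj
    rw [ff_core g2.2.1, ff_core (by omega), ff_pos hx]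
    have h8 : rj D τ j q.2 < rj D τ j 5 ↔ τ (D.X j) = true :=
      rk_5 (τ (D.X j)) (τ (D.Y j)) (τ (D.Z j)) (hτ j hj) q hq hq5
    have h6 := rj_lt (D := D) (τ := τ) (j := j) g2.2.1
    have h7 := rj_lt (D := D) (τ := τ) (j := j) (c := 5) (by omega)
    split_ifs with h9
    · rw [eq_true h9, iff_true] at h8
      omega
    · rw [eq_false h9, iff_false] at h8
      omega
  · exfalso
    have := hD.hX j' hj'
    omega
  · exfalso
    have := hD.hZ j' hj'
    omega
  · exfalso; omega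
  · exfalso; omega
  · -- hub, `3`, `0` or `2`
    have g2 := gl_lt q hq
    have hjj : j = j' := by omega
    subst hjj
    have hq3 : q.1 = 3 := by omega
    have hz := hD.hZ j hj
    rw [ff_core g2.2.1, ff_core (by omega), ff_neg hz]
    have h8 : rj D τ j q.2 < rj D τ j 3 ↔ τ (D.Z j) = false :=
      rk_3 (τ (D.X j)) (τ (D.Y j)) (τ (D.Z j)) (hτ j hj) q hq hq3
    have h6 := rj_lt (D := D) (τ := τ) (j := j) g2.2.1
    have h7 := rj_lt (D := D) (τ := τ) (j := j) (c := 3) (by omega)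
    split_ifs with h9
    · rw [h9] at h8
      simp only [Bool.true_eq_false, iff_false] at h8
      omega
    · rw [Bool.not_eq_true] at h9
      rw [h9] at h8
      simp only [iff_true] at h8
      omega
  · exfalso
    have := hD.hX j' hj'
    omega
  · exfalso
    have := hD.hZ j' hj'
    omega
  · exfalso; omega
  · -- `4`, hub, hub
    have hy := hD.hY j hj
    have ha : c = 2 * D.Y j + 1 := by omega
    subst ha
    rw [ff_neg hy, ff_pos hy, ff_core (by omega)]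
    have := rj_lt (D := D) (τ := τ) (j := j) (c := 4) (by omega)
    split_ifs <;> omega
  · exfalso
    have := hD.hY j hj
    omega
  · -- `4`, hub, `5`
    have hy := hD.hY j hj
    rw [ff_pos hy, ff_core (by omega), ff_core (by omega)]
    have := rj_lt (D := D) (τ := τ) (j := j) (c := 4) (by omega)
    have := rj_lt (D := D) (τ := τ) (j := j') (c := 5) (by omega)
    split_ifs <;> omega
  · exfalso; omega
  · exfalso
    have := hD.hY j hj
    omega

/-! ### From an ordering to an assignment -/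

theorem ar_irrefl {u : ℕ} (hD : Good D) : ¬ Ar D u u := by
  rintro (⟨_, _, _, h⟩ | ⟨j, hj, p, hp, h1, h2⟩ | ⟨j, hj, h1, h2⟩ | ⟨j, hj, h1, h2⟩ |
    ⟨j, hj, h1, h2⟩)
  · exact h rfl
  · have := gl_lt p hp
    omega
  · have := hD.hX j hj
    omega
  · have := hD.hZ j hj
    omega
  · have := hD.hY j hj
    omega

theorem ar_lt (hD : Good D) {u w : ℕ} (h : Ar D u w) :
    u < 2 * D.n + 6 * D.m ∧ w < 2 * D.n + 6 * D.m := by
  rcases h with ⟨_, _, _, h⟩ | ⟨j, hj, p, hp, h1, h2⟩ | ⟨j, hj, h1, h2⟩ | ⟨j, hj, h1, h2⟩ |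
    ⟨j, hj, h1, h2⟩
  · omega
  · have := gl_lt p hp
    omega
  · have := hD.hX j hj
    omega
  · have := hD.hZ j hj
    omega
  · have := hD.hY j hj
    omega

/-- From an ordering without forbidden betweenness to an assignment. -/
theorem assign (hD : Good D) {f : ℕ → ℕ} (hinj : ∀ x < 2 * D.n + 6 * D.m,
    ∀ y < 2 * D.n + 6 * D.m, f x = f y → x = y)
    (hf : ∀ a b c, Ar D a b → Ar D b c → ¬ Ar D a c → a ≠ c → (f a < f b ↔ f c < f b)) {j : ℕ}
    (hj : j < D.m) :
    ¬ (decide (f (2 * D.X j) < f (2 * D.X j + 1)) = decide (f (2 * D.Y j) < f (2 * D.Y j + 1)) ∧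
      decide (f (2 * D.Y j) < f (2 * D.Y j + 1)) = decide (f (2 * D.Z j) < f (2 * D.Z j + 1))) := by
  have hx := hD.hX j hj
  have hy := hD.hY j hj
  have hz := hD.hZ j hj
  -- the arcs of the gadget
  have harc : ∀ p ∈ gl, Ar D (2 * D.n + 6 * j + p.1) (2 * D.n + 6 * j + p.2) := fun p hp =>
    Or.inr (Or.inl ⟨j, hj, p, hp, rfl, rfl⟩)
  have hP : ∀ v < D.n, Ar D (2 * v) (2 * v + 1) := fun v hv => Or.inl ⟨by omega, by omega,
    by omega, by omega⟩
  have hN : ∀ v < D.n, Ar D (2 * v + 1) (2 * v) := fun v hv => Or.inl ⟨by omega, by omega,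
    by omega, by omega⟩
  have a5 : Ar D (2 * D.X j) (2 * D.n + 6 * j + 5) := Or.inr (Or.inr (Or.inl ⟨j, hj, rfl, rfl⟩))
  have a3 : Ar D (2 * D.Z j + 1) (2 * D.n + 6 * j + 3) :=
    Or.inr (Or.inr (Or.inr (Or.inl ⟨j, hj, rfl, rfl⟩)))
  have a4 : Ar D (2 * D.n + 6 * j + 4) (2 * D.Y j) :=
    Or.inr (Or.inr (Or.inr (Or.inr ⟨j, hj, rfl, rfl⟩)))
  have a14 := harc (1, 4) (by decide)
  have a15 := harc (1, 5) (by decide)
  have a32 := harc (3, 2) (by decide)
  have a42 := harc (4, 2) (by decide)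
  have a45 := harc (4, 5) (by decide)
  have a25 := harc (2, 5) (by decide)
  have a50 := harc (5, 0) (by decide)
  simp only at a14 a15 a32 a42 a45 a25 a50
  -- the pairs that are not arcs
  have hno : ∀ u w, (¬ ∃ j < D.m, ∃ p ∈ gl, u = 2 * D.n + 6 * j + p.1 ∧
      w = 2 * D.n + 6 * j + p.2) → (u < 2 * D.n → 2 * D.n ≤ w →
      (u % 2 = 0 → (w - 2 * D.n) % 6 ≠ 5) ∧ (u % 2 = 1 → (w - 2 * D.n) % 6 ≠ 3)) →
      (2 * D.n ≤ u → w < 2 * D.n → w % 2 = 0 → (u - 2 * D.n) % 6 ≠ 4) →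
      (u < 2 * D.n → w < 2 * D.n → u / 2 ≠ w / 2) → ¬ Ar D u w := by
    rintro u w h0 h1 h2 h3 (⟨k1, k2, k3, k4⟩ | h | ⟨i, hi, rfl, rfl⟩ | ⟨i, hi, rfl, rfl⟩ |
      ⟨i, hi, rfl, rfl⟩)
    · exact h3 k1 k2 k3
    · exact h0 h
    · have := hD.hX i hi
      have := (h1 (by omega) (by omega)).1 (by omega)
      omega
    · have := hD.hZ i hi
      have := (h1 (by omega) (by omega)).2 (by omega)
      omega
    · have := hD.hY i hi
      have := h2 (by omega) (by omega) (by omega)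
      omega
  have hin : ∀ c d, c < 6 → d < 6 → (c, d) ∉ gl →
      ¬ Ar D (2 * D.n + 6 * j + c) (2 * D.n + 6 * j + d) := by
    intro c d hc hd hcd
    refine hno _ _ ?_ (by omega) (by omega) (by omega)
    rintro ⟨i, hi, p, hp, h1, h2⟩
    have := gl_lt p hp
    have e1 : p.1 = c := by omega
    have e2 : p.2 = d := by omega
    exact hcd (by rw [← e1, ← e2]; exact hp)
  have hout : ∀ u w, (u < 2 * D.n ∨ w < 2 * D.n) → ¬ ∃ j < D.m, ∃ p ∈ gl,
      u = 2 * D.n + 6 * j + p.1 ∧ w = 2 * D.n + 6 * j + p.2 := by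
    rintro u w h ⟨i, hi, p, hp, h1, h2⟩
    omega
  -- different values
  have hd : ∀ x < 2 * D.n + 6 * D.m, ∀ y < 2 * D.n + 6 * D.m, x ≠ y → (f x < f y ↔ ¬ f y < f x) := by
    intro x hx y hy hxy
    have := mt (hinj x hx y hy) hxy
    omega
  have hj' : ∀ c < 6, 2 * D.n + 6 * j + c < 2 * D.n + 6 * D.m := fun c hc => by omega
  -- the chain for `X`
  have x1 := hf _ _ _ (hN _ hx) a5 (hno _ _ (hout _ _ (by omega)) (by omega) (by omega) (by omega))
    (by omega)
  have x2 := hf _ _ _ a5 a50 (hno _ _ (hout _ _ (by omega)) (by omega) (by omega) (by omega))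
    (by omega)
  have x3 := hf _ _ _ a45 a50 (hin 4 0 (by omega) (by omega) (by decide)) (by omega)
  have x4 := hd _ (hj' 5 (by omega)) (2 * D.X j) (by omega) (by omega)
  have x5 := hd (2 * D.X j + 1) (by omega) (2 * D.X j) (by omega) (by omega)
  -- the chain for `Y`
  have y1 := hf _ _ _ a4 (hP _ hy) (hno _ _ (hout _ _ (by omega)) (by omega) (by omega) (by omega))
    (by omega)
  have y2 := hf _ _ _ a14 a4 (hno _ _ (hout _ _ (by omega)) (by omega) (by omega) (by omega))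
    (by omega)
  have y3 := hf _ _ _ a14 a42 (hin 1 2 (by omega) (by omega) (by decide)) (by omega)
  have y4 := hd _ (hj' 4 (by omega)) (2 * D.Y j) (by omega) (by omega)
  have y5 := hd (2 * D.Y j + 1) (by omega) (2 * D.Y j) (by omega) (by omega)
  -- the chain for `Z`
  have z1 := hf _ _ _ (hP _ hz) a3 (hno _ _ (hout _ _ (by omega)) (by omega) (by omega) (by omega))
    (by omega)
  have z2 := hf _ _ _ a3 a32 (hno _ _ (hout _ _ (by omega)) (by omega) (by omega) (by omega))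
    (by omega)
  have z3 := hf _ _ _ a32 a25 (hin 3 5 (by omega) (by omega) (by decide)) (by omega)
  have z4 := hd _ (hj' 3 (by omega)) (2 * D.Z j + 1) (by omega) (by omega)
  have z5 := hd _ (hj' 3 (by omega)) _ (hj' 2 (by omega)) (by omega)
  have w1 := hd _ (hj' 4 (by omega)) _ (hj' 5 (by omega)) (by omega)
  have w2 := hd _ (hj' 2 (by omega)) _ (hj' 4 (by omega)) (by omega)
  have w3 := hd _ (hj' 5 (by omega)) _ (hj' 2 (by omega)) (by omega)
  rintro ⟨e1, e2⟩
  rw [decide_eq_decide] at e1 e2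
  simp only [Nat.add_zero] at *
  generalize f (2 * D.X j) = fx at *
  generalize f (2 * D.X j + 1) = fx' at *
  omega

end Pool.Agent.R544.CD
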