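import Mathlib

/-!
# Comparability digraphs: the problem
-/

namespace Pool.Agent.R544.CD

/-- An instance: the list of the vertices and the list of the arcs. -/
abbrev Inst : Type := List ℕ × List (ℕ × ℕ)

/-- The instance is a digraph: no repetitions, and every arc joins two different vertices
(`(x, y)` and `(y, x)` may both be arcs). -/
def IsDigraph (I : Inst) : Prop :=
  I.1.Nodup ∧ I.2.Nodup ∧ ∀ a ∈ I.2, a.1 ∈ I.1 ∧ a.2 ∈ I.1 ∧ a.1 ≠ a.2

/-- The linear order of the vertices by their values under `f` (`x` precedes `y` iff `f x < f y`) is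
a comparability ordering. -/
def CompOrdering (I : Inst) (f : ℕ → ℕ) : Prop :=
  (∀ x ∈ I.1, ∀ y ∈ I.1, f x = f y → x = y) ∧
  ∀ x ∈ I.1, ∀ y ∈ I.1, ∀ z ∈ I.1, f x < f y → f y < f z →
    ((x, y) ∈ I.2 → (y, z) ∈ I.2 → (x, z) ∈ I.2) ∧
    ((z, y) ∈ I.2 → (y, x) ∈ I.2 → (z, x) ∈ I.2)

/-- The instance is a comparability digraph. -/
def Comparability (I : Inst) : Prop := IsDigraph I ∧ ∃ f : ℕ → ℕ, CompOrdering I f

end Pool.Agent.R544.CD
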