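import Pool.Agent.R544.Nae3
import Pool.Agent.R544.EN.Main
import Pool.Agent.R544.CD.Core

/-!
# Comparability digraphs: the reduction and membership in NP
-/

set_option autoImplicit false

namespace Pool.Agent.R544.CD

open Pool.Agent.NPC Pool.Agent.R544
open Pool.Agent.R544.TF (pp_exlt pp_alllt sz_perm)

/-- The data of the construction. -/
def dat (φ : N3) : Dat where
  n := 3 * φ.length
  m := φ.length
  X := fun j => (tr φ j).1
  Y := fun j => (tr φ j).2.1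
  Z := fun j => (tr φ j).2.2

theorem good_dat {φ : N3} (hb : BN φ) : Good (dat φ) :=
  ⟨fun _ hj => (hb _ (tr_mem hj)).1, fun _ hj => (hb _ (tr_mem hj)).2.1,
    fun _ hj => (hb _ (tr_mem hj)).2.2⟩

/-- The vertices. -/
def lV (φ : N3) : List ℕ := List.range (2 * (3 * φ.length) + 6 * φ.length)

open Classical in
/-- The instance. -/
noncomputable def red (φ : N3) : Inst :=
  (lV φ, (lV φ ×ˢ lV φ).filter (fun a => decide (Ar (dat φ) a.1 a.2)))

theorem uPoly_len {α : Type} [TEnc α] {f : α → N3} (hf : NPC.Poly f) :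
    UPoly (fun a => (f a).length) := UPoly.length hf

theorem poly_lV : NPC.Poly lV := by
  have h := uPoly_len (f := fun φ : N3 => φ) NPC.Poly.id
  exact (UPoly.add (UPoly.mul (UPoly.const 2) (UPoly.mul (UPoly.const 3) h))
    (UPoly.mul (UPoly.const 6) h)).range

theorem pp_Ar : PP (fun x : N3 × (ℕ × ℕ) => Ar (dat x.1) x.2.1 x.2.2) := by
  unfold Ar dat gl
  simp only
  have hn : UPoly (fun x : N3 × (ℕ × ℕ) => x.1.length) := uPoly_len (by fun_prop)
  refine PP.or ?_ (PP.or ?_ (PP.or ?_ (PP.or ?_ ?_)))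
  · exact PP.and (PP.lt (by fun_prop) (by fun_prop)) (PP.and (PP.lt (by fun_prop) (by fun_prop))
      (PP.and (PP.eq (by fun_prop) (by fun_prop)) (PP.ne (by fun_prop) (by fun_prop))))
  · refine pp_exlt (r := fun (x : N3 × (ℕ × ℕ)) j => ∃ p ∈ [(1, 4), (1, 5), (2, 0), (2, 5), (3, 0),
      (3, 2), (4, 2), (4, 5), (5, 0)], x.2.1 = 2 * (3 * x.1.length) + 6 * j + p.1 ∧
      x.2.2 = 2 * (3 * x.1.length) + 6 * j + p.2) hn ?_
    exact PP.bex (l := fun _ : (N3 × (ℕ × ℕ)) × ℕ => [(1, 4), (1, 5), (2, 0), (2, 5), (3, 0),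
      (3, 2), (4, 2), (4, 5), (5, 0)]) (r := fun x p =>
      x.1.2.1 = 2 * (3 * x.1.1.length) + 6 * x.2 + p.1 ∧
      x.1.2.2 = 2 * (3 * x.1.1.length) + 6 * x.2 + p.2) (NPC.Poly.const _)
      (PP.and (PP.eq (by fun_prop) (by fun_prop)) (PP.eq (by fun_prop) (by fun_prop)))
  · exact pp_exlt (r := fun (x : N3 × (ℕ × ℕ)) j => x.2.1 = 2 * (tr x.1 j).1 ∧
      x.2.2 = 2 * (3 * x.1.length) + 6 * j + 5) hn
      (PP.and (PP.eq (by fun_prop) (by fun_prop)) (PP.eq (by fun_prop) (by fun_prop)))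
  · exact pp_exlt (r := fun (x : N3 × (ℕ × ℕ)) j => x.2.1 = 2 * (tr x.1 j).2.2 + 1 ∧
      x.2.2 = 2 * (3 * x.1.length) + 6 * j + 3) hn
      (PP.and (PP.eq (by fun_prop) (by fun_prop)) (PP.eq (by fun_prop) (by fun_prop)))
  · exact pp_exlt (r := fun (x : N3 × (ℕ × ℕ)) j => x.2.1 = 2 * (3 * x.1.length) + 6 * j + 4 ∧
      x.2.2 = 2 * (tr x.1 j).2.1) hn
      (PP.and (PP.eq (by fun_prop) (by fun_prop)) (PP.eq (by fun_prop) (by fun_prop)))

theorem poly_red : NPC.Poly red := by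
  classical
  have h1 := poly_lV
  have h4 : NPC.Poly (fun φ : N3 => lV φ ×ˢ lV φ) := by fun_prop
  exact NPC.Poly.pair h1 (PP.filter (l := fun φ : N3 => lV φ ×ˢ lV φ)
    (r := fun (φ : N3) (a : ℕ × ℕ) => Ar (dat φ) a.1 a.2) h4 pp_Ar)

theorem mem_lV {φ : N3} {v : ℕ} : v ∈ lV φ ↔ v < 2 * (dat φ).n + 6 * (dat φ).m := List.mem_range

theorem isDigraph_red {φ : N3} (hb : BN φ) : IsDigraph (red φ) := by
  classical
  refine ⟨List.nodup_range, (List.Nodup.product List.nodup_range List.nodup_range).filter _, ?_⟩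
  rintro ⟨u, v⟩ he
  unfold red at he
  simp only [List.mem_filter, List.mem_product, decide_eq_true_eq] at he
  refine ⟨he.1.1, he.1.2, ?_⟩
  rintro (rfl : u = v)
  exact ar_irrefl (good_dat hb) he.2

theorem mem_A {φ : N3} (hb : BN φ) {u v : ℕ} : (u, v) ∈ (red φ).2 ↔ Ar (dat φ) u v := by
  unfold red
  simp only [List.mem_filter, List.mem_product, decide_eq_true_eq, mem_lV]
  exact ⟨fun h => h.2, fun h => ⟨ar_lt (good_dat hb) h, h⟩⟩

theorem red_correct {φ : N3} (hb : BN φ) : NAE3 φ ↔ Comparability (red φ) := by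
  have hD := good_dat hb
  rw [nae3_iff]
  constructor
  · rintro ⟨τ, h⟩
    refine ⟨isDigraph_red hb, ff (dat φ) τ, fun x hx y hy => ff_inj (mem_lV.1 hx) (mem_lV.1 hy),
      fun x _ y _ z _ hxy hyz => ?_⟩
    simp only [mem_A hb]
    constructor
    · intro h1 h2
      by_contra h3
      have := noBetween hD h h1 h2 h3 (by rintro rfl; omega)
      omega
    · intro h1 h2
      by_contra h3
      have := noBetween hD h h1 h2 h3 (by rintro rfl; omega)
      omega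
  · rintro ⟨-, f, hinj, hf⟩
    refine ⟨fun v => decide (f (2 * v) < f (2 * v + 1)), fun j hj => ?_⟩
    refine assign hD (f := f) (fun x hx y hy => hinj x (mem_lV.2 hx) y (mem_lV.2 hy)) ?_ hj
    intro a b c hab hbc hac hne
    have ha := mem_lV.2 (ar_lt hD hab).1
    have hb' := mem_lV.2 (ar_lt hD hab).2
    have hc := mem_lV.2 (ar_lt hD hbc).2
    have h1 := hf a ha b hb' c hc
    have h2 := hf c hc b hb' a ha
    simp only [mem_A hb] at h1 h2
    have n1 : f a ≠ f b := fun h => ar_irrefl hD (by rw [hinj a ha b hb' h] at hab; exact hab)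
    have n2 : f b ≠ f c := fun h => ar_irrefl hD (by rw [hinj b hb' c hc h] at hbc; exact hbc)
    constructor
    · intro h3
      by_contra h4
      exact hac ((h1 h3 (by omega)).1 hab hbc)
    · intro h3
      by_contra h4
      exact hac ((h2 h3 (by omega)).2 hab hbc)

theorem hardPr_CD : HardPr IsDigraph Comparability :=
  hardPr_NAE3.trans poly_red (fun _ hb => isDigraph_red hb) fun _ hb => red_correct hb

/-! ### Membership in NP -/

/-- The test of a certificate, an ordering of the vertices given as a list. -/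
def Ver (I : Inst) (L : List ℕ) : Prop :=
  IsDigraph I ∧ (∀ v ∈ I.1, v ∈ L) ∧ ∀ x ∈ I.1, ∀ y ∈ I.1, ∀ z ∈ I.1,
    ¬ (index L x < index L y ∧ index L y < index L z) ∨
    ((¬ ((x, y) ∈ I.2 ∧ (y, z) ∈ I.2) ∨ (x, z) ∈ I.2) ∧
    (¬ ((z, y) ∈ I.2 ∧ (y, x) ∈ I.2) ∨ (z, x) ∈ I.2))

theorem pp_isDigraph : PP IsDigraph := by
  unfold IsDigraph
  refine PP.and (Pool.Agent.Y592.OP.pp_nodup (by fun_prop)) (PP.and
    (Pool.Agent.Y592.OP.pp_nodup (by fun_prop)) ?_)
  exact PP.ball (l := fun I : Inst => I.2) (r := fun I a => a.1 ∈ I.1 ∧ a.2 ∈ I.1 ∧ a.1 ≠ a.2)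
    (by fun_prop) (PP.and (PP.mem (by fun_prop) (by fun_prop))
      (PP.and (PP.mem (by fun_prop) (by fun_prop)) (PP.ne (by fun_prop) (by fun_prop))))

theorem pp_ver : PP (fun x : Inst × List ℕ => Ver x.1 x.2) := by
  unfold Ver
  refine PP.and (pp_isDigraph.comp (by fun_prop)) (PP.and ?_ ?_)
  · exact PP.ball (l := fun x : Inst × List ℕ => x.1.1) (r := fun x v => v ∈ x.2)
      (by fun_prop) (PP.mem (by fun_prop) (by fun_prop))
  · refine PP.ball (l := fun x : Inst × List ℕ => x.1.1) (r := fun w x => ∀ y ∈ w.1.1,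
      ∀ z ∈ w.1.1, ¬ (index w.2 x < index w.2 y ∧ index w.2 y < index w.2 z) ∨
      ((¬ ((x, y) ∈ w.1.2 ∧ (y, z) ∈ w.1.2) ∨ (x, z) ∈ w.1.2) ∧
      (¬ ((z, y) ∈ w.1.2 ∧ (y, x) ∈ w.1.2) ∨ (z, x) ∈ w.1.2))) (by fun_prop) ?_
    refine PP.ball (l := fun x : (Inst × List ℕ) × ℕ => x.1.1.1) (r := fun w y =>
      ∀ z ∈ w.1.1.1, ¬ (index w.1.2 w.2 < index w.1.2 y ∧ index w.1.2 y < index w.1.2 z) ∨
      ((¬ ((w.2, y) ∈ w.1.1.2 ∧ (y, z) ∈ w.1.1.2) ∨ (w.2, z) ∈ w.1.1.2) ∧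
      (¬ ((z, y) ∈ w.1.1.2 ∧ (y, w.2) ∈ w.1.1.2) ∨ (z, w.2) ∈ w.1.1.2))) (by fun_prop) ?_
    refine PP.ball (l := fun x : ((Inst × List ℕ) × ℕ) × ℕ => x.1.1.1.1) (r := fun w z =>
      ¬ (index w.1.1.2 w.1.2 < index w.1.1.2 w.2 ∧ index w.1.1.2 w.2 < index w.1.1.2 z) ∨
      ((¬ ((w.1.2, w.2) ∈ w.1.1.1.2 ∧ (w.2, z) ∈ w.1.1.1.2) ∨ (w.1.2, z) ∈ w.1.1.1.2) ∧
      (¬ ((z, w.2) ∈ w.1.1.1.2 ∧ (w.2, w.1.2) ∈ w.1.1.1.2) ∨ (z, w.1.2) ∈ w.1.1.1.2)))
      (by fun_prop) ?_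
    have hi : ∀ {f : (((Inst × List ℕ) × ℕ) × ℕ) × ℕ → ℕ}, NPC.Poly f →
        NPC.Poly (fun w => index w.1.1.1.2 (f w)) := fun hf => NPC.Poly.index (by fun_prop) hf
    refine PP.or (PP.not (PP.and (PP.lt (hi (by fun_prop)) (hi (by fun_prop)))
      (PP.lt (hi (by fun_prop)) (hi (by fun_prop))))) (PP.and (PP.or (PP.not (PP.and
      (PP.mem (by fun_prop) (by fun_prop)) (PP.mem (by fun_prop) (by fun_prop))))
      (PP.mem (by fun_prop) (by fun_prop))) (PP.or (PP.not (PP.and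
      (PP.mem (by fun_prop) (by fun_prop)) (PP.mem (by fun_prop) (by fun_prop))))
      (PP.mem (by fun_prop) (by fun_prop))))

theorem of_ver {I : Inst} {L : List ℕ} (h : Ver I L) : Comparability I := by
  obtain ⟨h1, h2, h3⟩ := h
  refine ⟨h1, index L, fun x hx y hy => index_inj (h2 x hx) (h2 y hy), ?_⟩
  intro x hx y hy z hz hxy hyz
  rcases h3 x hx y hy z hz with h | ⟨h4, h5⟩
  · exact absurd ⟨hxy, hyz⟩ h
  · refine ⟨fun a b => ?_, fun a b => ?_⟩
    · rcases h4 with h | h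
      · exact absurd ⟨a, b⟩ h
      · exact h
    · rcases h5 with h | h
      · exact absurd ⟨a, b⟩ h
      · exact h

theorem lt_of_index {f : ℕ → ℕ} {L : List ℕ} (hL : L.Pairwise (fun a b => f a ≤ f b))
    (hinj : ∀ x ∈ L, ∀ y ∈ L, f x = f y → x = y) {x y : ℕ} (hx : x ∈ L) (hy : y ∈ L)
    (h : index L x < index L y) : f x < f y := by
  have h1 := getElem?_index hx
  have h2 := getElem?_index hy
  rw [List.getElem?_eq_some_iff] at h1 h2
  obtain ⟨p1, q1⟩ := h1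
  obtain ⟨p2, q2⟩ := h2
  have h3 := List.pairwise_iff_getElem.1 hL _ _ p1 p2 h
  rw [q1, q2] at h3
  refine lt_of_le_of_ne h3 fun he => ?_
  rw [hinj x hx y hy he] at h
  exact lt_irrefl _ h

theorem ver_of {I : Inst} (h : Comparability I) : ∃ L : List ℕ,
    sz L ≤ (Polynomial.X : Polynomial ℕ).eval (sz I) ∧ Ver I L := by
  obtain ⟨h1, f, hinj, hf⟩ := h
  have hp : (I.1.mergeSort (fun a b => decide (f a ≤ f b))).Perm I.1 := List.mergeSort_perm _ _
  have hs : (I.1.mergeSort (fun a b => decide (f a ≤ f b))).Pairwise (fun a b => f a ≤ f b) := by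
    have := List.pairwise_mergeSort (le := fun a b => decide (f a ≤ f b)) (fun a b c h h' => by
      rw [decide_eq_true_eq] at *
      omega) (fun a b => by
      rw [Bool.or_eq_true, decide_eq_true_eq, decide_eq_true_eq]
      omega) I.1
    exact this.imp fun h => by simpa using h
  have hinj' : ∀ x ∈ I.1.mergeSort (fun a b => decide (f a ≤ f b)),
      ∀ y ∈ I.1.mergeSort (fun a b => decide (f a ≤ f b)), f x = f y → x = y := fun x hx y hy =>
    hinj x (hp.mem_iff.1 hx) y (hp.mem_iff.1 hy)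
  refine ⟨I.1.mergeSort (fun a b => decide (f a ≤ f b)), ?_, h1, fun v hv => hp.mem_iff.2 hv, ?_⟩
  · rw [sz_perm hp, Polynomial.eval_X]
    obtain ⟨a, b⟩ := I
    simp
    omega
  · intro x hx y hy z hz
    by_cases h3 : index (I.1.mergeSort (fun a b => decide (f a ≤ f b))) x <
      index (I.1.mergeSort (fun a b => decide (f a ≤ f b))) y ∧
      index (I.1.mergeSort (fun a b => decide (f a ≤ f b))) y <
      index (I.1.mergeSort (fun a b => decide (f a ≤ f b))) z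
    · right
      have h4 := hf x hx y hy z hz
        (lt_of_index hs hinj' (hp.mem_iff.2 hx) (hp.mem_iff.2 hy) h3.1)
        (lt_of_index hs hinj' (hp.mem_iff.2 hy) (hp.mem_iff.2 hz) h3.2)
      refine ⟨?_, ?_⟩
      · by_cases h5 : (x, y) ∈ I.2 ∧ (y, z) ∈ I.2
        · exact Or.inr (h4.1 h5.1 h5.2)
        · exact Or.inl h5
      · by_cases h5 : (z, y) ∈ I.2 ∧ (y, x) ∈ I.2
        · exact Or.inr (h4.2 h5.1 h5.2)
        · exact Or.inl h5
    · exact Or.inl h3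

theorem inNPP : InNPP Comparability :=
  inNPP_of_pp pp_ver Polynomial.X (fun _ h => ver_of h) fun _ _ h => of_ver h

end Pool.Agent.R544.CD
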